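import Pool.Agent.X155.ParaPF

/-! MP_27ef7a_al, Q1: the negated form holds. -/

namespace Pool.Agent.Results.MP_27ef7a_al.ParabolaDihedralPF

/-- `P` is polycyclic: it has a finite series from `⊥` to `⊤`, each term normal in the next one
with cyclic quotient. -/
def IsPolycyclic (P : Type) [Group P] : Prop :=
  ∃ (n : ℕ) (f : ℕ → Subgroup P), f 0 = ⊥ ∧ f n = ⊤ ∧
    ∀ i < n, f i ≤ f (i + 1) ∧ ∃ _ : ((f i).subgroupOf (f (i + 1))).Normal,
      IsCyclic (f (i + 1) ⧸ (f i).subgroupOf (f (i + 1)))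

/-- `Q` is polycyclic-by-finite: it has a polycyclic normal subgroup with finite quotient. -/
def IsPolycyclicByFinite (Q : Type) [Group Q] : Prop :=
  ∃ P : Subgroup Q, P.Normal ∧ IsPolycyclic P ∧ Finite (Q ⧸ P)

/-- `H` is nilpotent-by-(polycyclic-by-finite): it has a nilpotent normal subgroup `K` with
`H / K` polycyclic-by-finite. -/
def IsNilpotentByPF (H : Type) [Group H] : Prop :=
  ∃ (K : Subgroup H) (_ : K.Normal), Group.IsNilpotent K ∧ IsPolycyclicByFinite (H ⧸ K)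

/-- The class `(N(PF), ∞)*`: every infinite subset contains distinct `x, y` such that
`⟨x, y⁻¹ x y⟩` is nilpotent-by-(polycyclic-by-finite). -/
def InStarClass (G : Type) [Group G] : Prop :=
  ∀ S : Set G, S.Infinite → ∃ x ∈ S, ∃ y ∈ S, x ≠ y ∧
    IsNilpotentByPF (Subgroup.closure {x, y⁻¹ * x * y} : Subgroup G)

/-- There is a finitely generated soluble group in `(N(PF), ∞)*` which is not in `N(PF)`; in fact
all subgroups `⟨x, x ^ y⟩` of it are in `N(PF)`. -/
theorem result : ∃ (G : Type) (_ : Group G), Group.FG G ∧ Group.IsSolvable G ∧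
    (∀ x y : G, IsNilpotentByPF (Subgroup.closure {x, y⁻¹ * x * y} : Subgroup G)) ∧
    InStarClass G ∧ ¬ IsNilpotentByPF G := by
  have hall : ∀ x y : Pool.Agent.X155.ParaDih.Amb.G,
      IsNilpotentByPF (Subgroup.closure {x, y⁻¹ * x * y} :
        Subgroup Pool.Agent.X155.ParaDih.Amb.G) := by
    intro x y
    refine Pool.Agent.X155.ParaDih.Amb.npf_closure x (y⁻¹ * x * y) ?_
    change x.1.k = (y.1⁻¹ * x.1 * y.1).k
    rw [Pool.Agent.X155.ParaDih.Amb.mul_k, Pool.Agent.X155.ParaDih.Amb.mul_k,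
      Pool.Agent.X155.ParaDih.Amb.inv_k]
    abel
  refine ⟨Pool.Agent.X155.ParaDih.Amb.G, inferInstance, ?_, inferInstance, hall, ?_,
    Pool.Agent.X155.ParaDih.Amb.not_npf⟩
  · rw [Group.fg_iff_subgroup_fg, Subgroup.fg_iff]
    exact ⟨{Pool.Agent.X155.ParaDih.Amb.T (1, 0), Pool.Agent.X155.ParaDih.Amb.T (0, 1),
      Pool.Agent.X155.ParaDih.Amb.a}, rfl, Set.toFinite _⟩
  · intro S hS
    obtain ⟨x, hx, y, hy, hxy⟩ := hS.nontrivial
    exact ⟨x, hx, y, hy, hxy, hall x y⟩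

end Pool.Agent.Results.MP_27ef7a_al.ParabolaDihedralPF
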